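import Pool.Agent.GLE.StmtsA
import Pool.Agent.GLE.StmtsC

/-!
# Squad GLE, row CEN: centres
-/

open scoped BigOperators

noncomputable section

namespace Pool.Agent.GLE.H86

open Polynomial Pool.Agent.GLE

theorem iter_eq (c : ℂ) (n : ℕ) : (fun z : ℂ => z ^ 2 + c)^[n] 0 = av n c := by
  induction n with
  | zero => rfl
  | succ n ih =>
    rw [Function.iterate_succ_apply', ih]
    rfl

/-- periodic critical orbit -/
def Per (c : ℂ) : Prop := ∃ n, 1 ≤ n ∧ (fun z : ℂ => z ^ 2 + c)^[n] 0 = 0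

section facts

variable (hSEP : SepStmt)

include hSEP

theorem aev {n : ℕ} (hn : 1 ≤ n) (z : ℂ) : aeval z (av n (X : ℤ[X])) = av n z :=
  (hSEP n hn).2.2.2.1 z

theorem integ {n : ℕ} (hn : 1 ≤ n) {c : ℂ} (h : av n c = 0) : IsIntegral ℤ c :=
  ⟨av n (X : ℤ[X]), (hSEP n hn).1, by
    have h1 := aev hSEP hn c
    rw [h] at h1
    exact h1⟩

theorem dvd_av {n : ℕ} (hn : 1 ≤ n) {c : ℂ} (h : av n c = 0) :
    minpoly ℤ c ∣ av n (X : ℤ[X]) :=
  minpoly.isIntegrallyClosed_dvd (integ hSEP hn h) (by rw [aev hSEP hn, h])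

theorem minpoly_q {n : ℕ} (hn : 1 ≤ n) {c : ℂ} (h : av n c = 0) :
    minpoly ℚ c = (minpoly ℤ c).map (algebraMap ℤ ℚ) :=
  minpoly.isIntegrallyClosed_eq_field_fractions' ℚ (integ hSEP hn h)

/-- the roots of the minimal polynomial -/
theorem root_av {n : ℕ} (hn : 1 ≤ n) {c : ℂ} (h : av n c = 0) {z : ℂ}
    (hz : aeval z (minpoly ℤ c) = 0) : av n z = 0 := by
  obtain ⟨q, hq⟩ := dvd_av hSEP hn h
  rw [← aev hSEP hn, hq, map_mul, hz, zero_mul]

theorem root_av' {n : ℕ} (hn : 1 ≤ n) {c : ℂ} (h : av n c = 0) {z : ℂ}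
    (hz : aeval z (minpoly ℚ c) = 0) : av n z = 0 := by
  rw [minpoly_q hSEP hn h, aeval_map_algebraMap] at hz
  exact root_av hSEP hn h hz

theorem good (hESC : EscStmt) {n : ℕ} (hn : 1 ≤ n) {c : ℂ} (h : av n c = 0) :
    (minpoly ℤ c).Monic ∧ Irreducible (minpoly ℤ c) ∧
      (minpoly ℤ c).natDegree = (minpoly ℚ c).natDegree ∧ ∀ z ∈ rt (minpoly ℤ c), inM z := by
  have hi := integ hSEP hn h
  have hm := minpoly.monic hi
  refine ⟨hm, minpoly.irreducible hi, ?_, fun z hz => ?_⟩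
  · rw [minpoly_q hSEP hn h, hm.natDegree_map]
  · refine hESC.2 n z hn (root_av hSEP hn h ?_)
    unfold rt at hz
    rw [Multiset.mem_toFinset] at hz
    have h1 := (mem_roots'.1 hz).2
    rw [IsRoot.def, eval_map] at h1
    exact h1

end facts

/-- the set of the good integer polynomials -/
def GG (D : ℕ) : Set ℤ[X] :=
  {g : ℤ[X] | g.Monic ∧ Irreducible g ∧ g.natDegree ≤ D ∧ ∀ z ∈ rt g, inM z}

/-- the set of the minimal polynomials of the centres -/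
def PP (D : ℕ) : Set ℚ[X] :=
  {p : ℚ[X] | ∃ c : ℂ, (∃ n, 1 ≤ n ∧ (fun z : ℂ => z ^ 2 + c)^[n] 0 = 0) ∧
    p = minpoly ℚ c ∧ p.natDegree ≤ D}

/-- the set of the centres -/
def CC (D : ℕ) : Set ℂ :=
  {c : ℂ | (∃ n, 1 ≤ n ∧ (fun z : ℂ => z ^ 2 + c)^[n] 0 = 0) ∧ (minpoly ℚ c).natDegree ≤ D}

theorem pp_sub (hSEP : SepStmt) (hESC : EscStmt) (D : ℕ) :
    PP D ⊆ (fun g : ℤ[X] => g.map (algebraMap ℤ ℚ)) '' GG D := by
  rintro p ⟨c, ⟨n, hn, hc⟩, rfl, hD⟩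
  rw [iter_eq] at hc
  obtain ⟨h1, h2, h3, h4⟩ := good hSEP hESC hn hc
  exact ⟨minpoly ℤ c, ⟨h1, h2, h3.le.trans hD, h4⟩, (minpoly_q hSEP hn hc).symm⟩

theorem pp_fin (hSEP : SepStmt) (hESC : EscStmt) {D : ℕ} (h : (GG D).Finite) : (PP D).Finite :=
  (h.image _).subset (pp_sub hSEP hESC D)

theorem pp_card (hSEP : SepStmt) (hESC : EscStmt) {D : ℕ} (h : (GG D).Finite) :
    (PP D).ncard ≤ (GG D).ncard :=
  (Set.ncard_le_ncard (pp_sub hSEP hESC D) (h.image _)).trans (Set.ncard_image_le h)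

theorem cc_bd (hSEP : SepStmt) {D : ℕ} (h : (PP D).Finite) :
    (CC D).Finite ∧ (CC D).ncard ≤ (PP D).ncard * D := by
  classical
  have hsub : CC D ⊆ ((h.toFinset.biUnion fun p => (p.map (algebraMap ℚ ℂ)).roots.toFinset :
      Finset ℂ) : Set ℂ) := by
    rintro c ⟨⟨n, hn, hc⟩, hD⟩
    have hc' := hc
    rw [iter_eq] at hc'
    have hi : IsIntegral ℚ c := (integ hSEP hn hc').tower_top
    rw [Finset.mem_coe, Finset.mem_biUnion]
    refine ⟨minpoly ℚ c, ?_, ?_⟩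
    · rw [Set.Finite.mem_toFinset]
      exact ⟨c, ⟨n, hn, hc⟩, rfl, hD⟩
    · rw [Multiset.mem_toFinset, mem_roots', IsRoot.def, eval_map]
      exact ⟨((minpoly.monic hi).map _).ne_zero, minpoly.aeval ℚ c⟩
  refine ⟨(Finset.finite_toSet _).subset hsub, ?_⟩
  refine (Set.ncard_le_ncard hsub (Finset.finite_toSet _)).trans ?_
  rw [Set.ncard_coe_finset, Set.ncard_eq_toFinset_card _ h]
  refine Finset.card_biUnion_le_card_mul _ _ _ fun p hp => ?_
  rw [Set.Finite.mem_toFinset] at hp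
  obtain ⟨c, -, -, hD⟩ := hp
  refine (Multiset.toFinset_card_le _).trans ((card_roots' _).trans ?_)
  exact natDegree_map_le.trans hD

/-- the polynomials of the exact period `n` -/
def QQ (n : ℕ) : Set ℚ[X] :=
  {p : ℚ[X] | ∃ c : ℂ, Function.minimalPeriod (fun z : ℂ => z ^ 2 + c) 0 = n ∧ p = minpoly ℚ c}

theorem mper {n : ℕ} {c : ℂ} (h : Function.minimalPeriod (fun z : ℂ => z ^ 2 + c) 0 = n) :
    (fun z : ℂ => z ^ 2 + c)^[n] 0 = 0 := by
  have h1 := Function.isPeriodicPt_minimalPeriod (fun z : ℂ => z ^ 2 + c) 0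
  rw [h] at h1
  exact h1

/-- the roots of `av n` -/
def RR (n : ℕ) : Finset ℂ := (av n (X : ℂ[X])).roots.toFinset

theorem rr_card (hSEP : SepStmt) {n : ℕ} (hn : 1 ≤ n) : (RR n).card ≤ 2 ^ (n - 1) := by
  refine (Multiset.toFinset_card_le _).trans ((card_roots' _).trans ?_)
  exact ((hSEP n hn).2.2.2.2.2.2.2.2.1).le

theorem mem_rr (hSEP : SepStmt) {n : ℕ} (hn : 1 ≤ n) {z : ℂ} : z ∈ RR n ↔ av n z = 0 := by
  unfold RR
  rw [Multiset.mem_toFinset, mem_roots', IsRoot.def, (hSEP n hn).2.2.2.2.2.2.2.2.2.1 z]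
  exact ⟨fun h => h.2, fun h => ⟨(hSEP n hn).2.2.2.2.2.2.2.1.ne_zero, h⟩⟩

theorem qq_fin (hSEP : SepStmt) {n : ℕ} (hn : 1 ≤ n) : (QQ n).Finite := by
  refine ((RR n).finite_toSet.image (fun c => minpoly ℚ c)).subset ?_
  rintro p ⟨c, hc, rfl⟩
  refine ⟨c, ?_, rfl⟩
  rw [Finset.mem_coe, mem_rr hSEP hn, ← iter_eq]
  exact mper hc

/-- the polynomials of large degree -/
theorem qq_large (hSEP : SepStmt) {n : ℕ} (hn : 1 ≤ n) (D : ℕ) :
    D * (QQ n \ PP D).ncard ≤ 2 ^ (n - 1) := by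
  classical
  have hfin : (QQ n \ PP D).Finite := (qq_fin hSEP hn).subset Set.sdiff_subset
  refine le_trans ?_ (rr_card hSEP hn)
  rw [Set.ncard_eq_toFinset_card _ hfin, mul_comm]
  have hfib : ∀ p ∈ hfin.toFinset, D ≤ ((RR n).filter (fun z => minpoly ℚ z = p)).card := by
    intro p hp
    rw [Set.Finite.mem_toFinset] at hp
    obtain ⟨⟨c, hc, rfl⟩, hpD⟩ := hp
    have hc0 := mper hc
    have hav : av n c = 0 := by rwa [iter_eq] at hc0
    have hdeg : D < (minpoly ℚ c).natDegree := by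
      by_contra h
      exact hpD ⟨c, ⟨n, hn, hc0⟩, rfl, not_lt.1 h⟩
    have hi : IsIntegral ℚ c := (integ hSEP hn hav).tower_top
    have hirr := minpoly.irreducible hi
    have hcard := card_rootSet_eq_natDegree (K := ℂ) hirr.separable
      (IsAlgClosed.splits ((minpoly ℚ c).map (algebraMap ℚ ℂ)))
    have hsub : (minpoly ℚ c).rootSet ℂ ⊆
        (((RR n).filter (fun z => minpoly ℚ z = minpoly ℚ c) : Finset ℂ) : Set ℂ) := by
      intro z hz
      have hz0 : aeval z (minpoly ℚ c) = 0 := (mem_rootSet.1 hz).2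
      rw [Finset.mem_coe, Finset.mem_filter]
      refine ⟨(mem_rr hSEP hn).2 (root_av' hSEP hn hav hz0), ?_⟩
      exact (minpoly.eq_of_irreducible_of_monic hirr hz0 (minpoly.monic hi)).symm
    have h1 := Set.ncard_le_ncard hsub (Finset.finite_toSet _)
    rw [Set.ncard_coe_finset] at h1
    have h2 : ((minpoly ℚ c).rootSet ℂ).ncard = (minpoly ℚ c).natDegree := by
      rw [← hcard, Set.ncard_eq_toFinset_card', Set.toFinset_card]
    omega
  calc hfin.toFinset.card * D = ∑ _p ∈ hfin.toFinset, D := by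
        rw [Finset.sum_const, smul_eq_mul]
    _ ≤ ∑ p ∈ hfin.toFinset, ((RR n).filter (fun z => minpoly ℚ z = p)).card :=
        Finset.sum_le_sum hfib
    _ = (hfin.toFinset.biUnion fun p => (RR n).filter (fun z => minpoly ℚ z = p)).card := by
        rw [Finset.card_biUnion]
        intro p _ q _ hpq
        change Disjoint ((RR n).filter (fun z => minpoly ℚ z = p))
          ((RR n).filter (fun z => minpoly ℚ z = q))
        rw [Finset.disjoint_left]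
        intro z hz hz'
        exact hpq ((Finset.mem_filter.1 hz).2.symm.trans (Finset.mem_filter.1 hz').2)
    _ ≤ (RR n).card := by
        refine Finset.card_le_card ?_
        intro z hz
        rw [Finset.mem_biUnion] at hz
        obtain ⟨p, _, hz⟩ := hz
        exact (Finset.mem_filter.1 hz).1

/-- row CEN -/
theorem cen (hFIN : FinStmt) (hSEP : SepStmt) (hESC : EscStmt) : CenStmt := by
  intro ε hε
  obtain ⟨C₁, hC₁, h₁⟩ := hFIN ε hε
  obtain ⟨C₂, hC₂, h₂⟩ := hFIN (2 * ε) (by positivity)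
  have hpp : ∀ D : ℕ, 1 ≤ D → (PP D).Finite ∧ ((PP D).ncard : ℝ) ≤ C₁ * (D : ℝ) ^ (1 + ε) := by
    intro D hD
    obtain ⟨ha, hb⟩ := h₁ D hD
    refine ⟨pp_fin hSEP hESC ha, le_trans ?_ hb⟩
    exact_mod_cast pp_card hSEP hESC ha
  have hcc : ∀ D : ℕ, 1 ≤ D → (CC D).Finite ∧ ((CC D).ncard : ℝ) ≤ C₁ * (D : ℝ) ^ (2 + ε) := by
    intro D hD
    obtain ⟨ha, hb⟩ := hpp D hD
    have hD0 : (0 : ℝ) < D := by exact_mod_cast hD
    obtain ⟨hc, hd⟩ := cc_bd hSEP ha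
    refine ⟨hc, ?_⟩
    calc ((CC D).ncard : ℝ) ≤ ((PP D).ncard : ℝ) * D := by exact_mod_cast hd
      _ ≤ C₁ * (D : ℝ) ^ (1 + ε) * D := mul_le_mul_of_nonneg_right hb hD0.le
      _ = C₁ * (D : ℝ) ^ (2 + ε) := by
          rw [show (2 : ℝ) + ε = 1 + ε + 1 by ring, Real.rpow_add_one hD0.ne' (1 + ε)]
          ring
  have hcc2 : ∀ D : ℕ, 1 ≤ D → ((CC D).ncard : ℝ) ≤ C₂ * (D : ℝ) ^ (2 + 2 * ε) := by
    intro D hD
    obtain ⟨ha, hb⟩ := h₂ D hD
    have hD0 : (0 : ℝ) < D := by exact_mod_cast hD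
    have hb' : ((PP D).ncard : ℝ) ≤ C₂ * (D : ℝ) ^ (1 + 2 * ε) := by
      refine le_trans ?_ hb
      exact_mod_cast pp_card hSEP hESC ha
    obtain ⟨hc, hd⟩ := cc_bd hSEP (pp_fin hSEP hESC ha)
    calc ((CC D).ncard : ℝ) ≤ ((PP D).ncard : ℝ) * D := by exact_mod_cast hd
      _ ≤ C₂ * (D : ℝ) ^ (1 + 2 * ε) * D := mul_le_mul_of_nonneg_right hb' hD0.le
      _ = C₂ * (D : ℝ) ^ (2 + 2 * ε) := by
          rw [show (2 : ℝ) + 2 * ε = 1 + 2 * ε + 1 by ring,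
            Real.rpow_add_one hD0.ne' (1 + 2 * ε)]
          ring
  have h2p : (0 : ℝ) < (2 : ℝ) ^ (1 + ε) := by positivity
  obtain ⟨C, hC⟩ : ∃ C : ℝ, C = C₁ + (C₁ * (2 : ℝ) ^ (1 + ε) + 1) + C₂ := ⟨_, rfl⟩
  have hC0 : 0 < C := by
    rw [hC]
    positivity
  have hCC₁ : C₁ ≤ C := by
    rw [hC]
    nlinarith [mul_pos hC₁ h2p]
  have hCC₂ : C₂ ≤ C := by
    rw [hC]
    nlinarith [mul_pos hC₁ h2p]
  have hCC₃ : C₁ * (2 : ℝ) ^ (1 + ε) + 1 ≤ C := by
    rw [hC]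
    linarith
  refine ⟨C, hC0, ?_, ?_, ?_, ?_⟩
  · intro D hD
    obtain ⟨ha, hb⟩ := hpp D hD
    exact ⟨ha, hb.trans (mul_le_mul_of_nonneg_right hCC₁ (by positivity))⟩
  · intro D hD
    obtain ⟨ha, hb⟩ := hcc D hD
    exact ⟨ha, hb.trans (mul_le_mul_of_nonneg_right hCC₁ (by positivity))⟩
  · intro n hn
    have hn1 : (1 : ℝ) ≤ n := by exact_mod_cast hn
    obtain ⟨x, hx⟩ : ∃ x : ℝ, x = (2 : ℝ) ^ ((n : ℝ) / 2) := ⟨_, rfl⟩
    have hx1 : 1 ≤ x := by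
      rw [hx]
      exact Real.one_le_rpow (by norm_num) (by positivity)
    obtain ⟨D, hD⟩ : ∃ D : ℕ, D = ⌈x⌉₊ := ⟨_, rfl⟩
    have hxD : x ≤ D := by
      rw [hD]
      exact Nat.le_ceil x
    have hDx : (D : ℝ) ≤ 2 * x := by
      rw [hD]
      have := Nat.ceil_lt_add_one (zero_le_one.trans hx1)
      linarith
    have hD1 : 1 ≤ D := by
      have : (1 : ℝ) ≤ D := hx1.trans hxD
      exact_mod_cast this
    have hD0 : (0 : ℝ) < D := by exact_mod_cast hD1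
    have hxx : x * x = (2 : ℝ) ^ (n : ℝ) := by
      rw [hx, ← Real.rpow_add (by norm_num)]
      congr 1
      ring
    -- the two parts
    obtain ⟨hpf, hpb⟩ := hpp D hD1
    have hsplit : QQ n ⊆ PP D ∪ (QQ n \ PP D) := by
      intro p hp
      by_cases h : p ∈ PP D
      · exact Or.inl h
      · exact Or.inr ⟨hp, h⟩
    have hqf := qq_fin hSEP hn
    have hcard : (QQ n).ncard ≤ (PP D).ncard + (QQ n \ PP D).ncard :=
      (Set.ncard_le_ncard hsplit (hpf.union (hqf.subset Set.sdiff_subset))).trans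
        (Set.ncard_union_le _ _)
    have hlarge : ((QQ n \ PP D).ncard : ℝ) ≤ x := by
      have h1 := qq_large hSEP hn D
      have h2 : ((D : ℝ)) * ((QQ n \ PP D).ncard : ℝ) ≤ (2 : ℝ) ^ (n : ℝ) := by
        have h3 : D * (QQ n \ PP D).ncard ≤ 2 ^ n :=
          h1.trans (Nat.pow_le_pow_right (by norm_num) (Nat.sub_le _ _))
        rw [Real.rpow_natCast]
        exact_mod_cast h3
      rw [← hxx] at h2
      have h4 : x * ((QQ n \ PP D).ncard : ℝ) ≤ x * x :=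
        (mul_le_mul_of_nonneg_right hxD (Nat.cast_nonneg _)).trans h2
      exact le_of_mul_le_mul_left h4 (by linarith)
    have hexp : x ^ (1 + ε) ≤ (2 : ℝ) ^ ((1 / 2 + ε) * n) := by
      rw [hx, ← Real.rpow_mul (by norm_num)]
      refine Real.rpow_le_rpow_of_exponent_le (by norm_num) ?_
      nlinarith
    have hxe : x ≤ x ^ (1 + ε) := by
      have := Real.rpow_le_rpow_of_exponent_le hx1 (show (1 : ℝ) ≤ 1 + ε by linarith)
      rwa [Real.rpow_one] at this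
    have hsmall : ((PP D).ncard : ℝ) ≤ C₁ * (2 : ℝ) ^ (1 + ε) * x ^ (1 + ε) := by
      refine hpb.trans ?_
      rw [mul_assoc, ← Real.mul_rpow (by norm_num) (by linarith)]
      refine mul_le_mul_of_nonneg_left ?_ hC₁.le
      exact Real.rpow_le_rpow hD0.le hDx (by linarith)
    calc ((QQ n).ncard : ℝ) ≤ ((PP D).ncard : ℝ) + ((QQ n \ PP D).ncard : ℝ) := by
          exact_mod_cast hcard
      _ ≤ C₁ * (2 : ℝ) ^ (1 + ε) * x ^ (1 + ε) + x ^ (1 + ε) :=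
          add_le_add hsmall (hlarge.trans hxe)
      _ = (C₁ * (2 : ℝ) ^ (1 + ε) + 1) * x ^ (1 + ε) := by ring
      _ ≤ C * (2 : ℝ) ^ ((1 / 2 + ε) * n) := by
          refine mul_le_mul hCC₃ hexp (by positivity) hC0.le
  · intro hε2 n hn
    obtain ⟨y, hy⟩ : ∃ y : ℝ, y = (2 : ℝ) ^ ((1 / 2 - ε) * n) := ⟨_, rfl⟩
    have hn1 : (1 : ℝ) ≤ n := by exact_mod_cast hn
    have hy1 : 1 ≤ y := by
      rw [hy]
      exact Real.one_le_rpow (by norm_num) (mul_nonneg (by linarith) (by linarith))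
    obtain ⟨D, hD⟩ : ∃ D : ℕ, D = ⌊y⌋₊ := ⟨_, rfl⟩
    have hD1 : 1 ≤ D := by
      rw [hD]
      exact Nat.le_floor (by exact_mod_cast hy1)
    have hDy : (D : ℝ) ≤ y := by
      rw [hD]
      exact Nat.floor_le (by linarith)
    have hsub : {c : ℂ | Function.minimalPeriod (fun z : ℂ => z ^ 2 + c) 0 = n ∧
        ((minpoly ℚ c).natDegree : ℝ) ≤ (2 : ℝ) ^ ((1 / 2 - ε) * n)} ⊆ CC D := by
      rintro c ⟨hc, hdeg⟩
      refine ⟨⟨n, hn, mper hc⟩, ?_⟩
      rw [hD]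
      refine Nat.le_floor ?_
      rw [hy]
      exact hdeg
    have h1 := Set.ncard_le_ncard hsub (hcc D hD1).1
    have hexp : y ^ (2 + 2 * ε) ≤ (2 : ℝ) ^ ((1 - ε) * n) := by
      rw [hy, ← Real.rpow_mul (by norm_num)]
      refine Real.rpow_le_rpow_of_exponent_le (by norm_num) ?_
      have h2 : (1 / 2 - ε) * (n : ℝ) * (2 + 2 * ε) = (1 - ε) * n - 2 * ε ^ 2 * n := by ring
      rw [h2]
      have h3 : 0 ≤ 2 * ε ^ 2 * (n : ℝ) := by positivity
      linarith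
    calc (({c : ℂ | Function.minimalPeriod (fun z : ℂ => z ^ 2 + c) 0 = n ∧
        ((minpoly ℚ c).natDegree : ℝ) ≤ (2 : ℝ) ^ ((1 / 2 - ε) * n)}.ncard : ℕ) : ℝ)
        ≤ ((CC D).ncard : ℝ) := by exact_mod_cast h1
      _ ≤ C₂ * (D : ℝ) ^ (2 + 2 * ε) := hcc2 D hD1
      _ ≤ C₂ * y ^ (2 + 2 * ε) := by
          refine mul_le_mul_of_nonneg_left ?_ hC₂.le
          exact Real.rpow_le_rpow (by positivity) hDy (by linarith)
      _ ≤ C * (2 : ℝ) ^ ((1 - ε) * n) := mul_le_mul hCC₂ hexp (by positivity) hC0.le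

end Pool.Agent.GLE.H86
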